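import Mathlib
import Pool.Agent.H21.Hd1

namespace Pool.Agent.Results.MP_121ecb_an.No

open Filter Topology

/-- The germs at infinity of the functions in `H` form a Hardy field: a subring in which every
nonzero germ is invertible, consisting of eventually differentiable functions and closed under
differentiation. -/
def IsHardy (H : Set (ℝ → ℝ)) : Prop :=
  1 ∈ H ∧ (∀ f ∈ H, ∀ g ∈ H, f + g ∈ H ∧ f * g ∈ H) ∧ (∀ f ∈ H, -f ∈ H) ∧
    (∀ f ∈ H, (∀ᶠ t in atTop, f t = 0) ∨ ∃ g ∈ H, ∀ᶠ t in atTop, f t * g t = 1) ∧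
    ∀ f ∈ H, (∀ᶠ t in atTop, DifferentiableAt ℝ f t) ∧ deriv f ∈ H

open Classical in
/-- Upper density of a set of natural numbers. -/
noncomputable def upperDensity (E : Set ℕ) : ℝ :=
  limsup (fun N : ℕ => (((Finset.Icc 1 N).filter (· ∈ E)).card : ℝ) / N) atTop

/-- The return set: all `n ≥ 1` with `E ∩ (E - ⌊f n⌋)` nonempty. -/
def R (f : ℝ → ℝ) (E : Set ℕ) : Set ℕ :=
  {n | 1 ≤ n ∧ ∃ e ∈ E, ∃ e' ∈ E, (e : ℤ) = e' - ⌊f n⌋}

/-- A set is thick if it contains arbitrarily long intervals. -/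
def Thick (S : Set ℕ) : Prop := ∀ L : ℕ, ∃ a : ℕ, ∀ i < L, a + i ∈ S

open Pool.Agent.H21.Hd in
theorem result (α : ℝ) (hα : Irrational α) (f₁ f₂ : ℝ → ℝ)
    (h₁ : ∀ t, f₁ t = t ^ (3 / 2 : ℝ)) (h₂ : ∀ t, f₂ t = α * t ^ (3 / 2 : ℝ) + t) :
    (∃ H, IsHardy H ∧ f₁ ∈ H ∧ f₂ ∈ H) ∧
    (∀ (c₁ c₂ : ℤ) (m₁ m₂ : ℕ),
      Tendsto (fun t => |c₁ * deriv^[m₁] f₁ t + c₂ * deriv^[m₂] f₂ t|) atTop (𝓝 0) ∨
      Tendsto (fun t => |c₁ * deriv^[m₁] f₁ t + c₂ * deriv^[m₂] f₂ t|) atTop atTop) ∧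
    ∃ E : Set ℕ, 0 ∉ E ∧ 0 < upperDensity E ∧ ¬Thick (R f₁ E ∩ R f₂ E) := by
  have e₁ : f₁ = fun t : ℝ => 1 * t ^ (3 / 2 : ℝ) + 0 * t := funext fun t => by simp [h₁]
  have e₂ : f₂ = fun t : ℝ => α * t ^ (3 / 2 : ℝ) + 1 * t := funext fun t => by simp [h₂]
  refine ⟨⟨H, ⟨⟨1, 1, one_ne_zero, by simp⟩, fun f hf g hg => ⟨H_add hf hg, H_mul hf hg⟩,
    fun f => H_neg, fun f => H_inv, fun f => H_deriv⟩, e₁ ▸ H_f _ _, e₂ ▸ H_f _ _⟩,
    fun c₁ c₂ m₁ m₂ => ?_, ?_⟩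
  · obtain ⟨u, hu, h3⟩ := iter' 1 0 m₁
    obtain ⟨v, hv, h4⟩ := iter' α 1 m₂
    refine lim (c₁ * (if m₁ = 0 then 1 else 0) + c₂ * (if m₂ = 0 then α else 0))
      (c₂ * (if m₂ = 0 then 1 else 0))
      (3 / 2 * (c₁ * (if m₁ = 1 then 1 else 0) + c₂ * (if m₂ = 1 then α else 0)))
      (c₂ * (if m₂ = 1 then 1 else 0)) _ (fun t => c₁ * u t + c₂ * v t)
      (by simpa using (hu.const_mul (c₁ : ℝ)).add (hv.const_mul (c₂ : ℝ))) (fun h => ?_)
      fun t ht => ?_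
    · by_cases h5 : m₂ = 1
      · by_contra h6
        have h7 : c₂ ≠ 0 := by rintro rfl; simp at h6
        rw [if_pos h5] at h
        refine (hα.intCast_mul h7).ne_int (-(c₁ * if m₁ = 1 then 1 else 0)) ?_
        push_cast
        linarith
      · simp [h5]
    · rw [e₁, e₂, h3 t ht, h4 t ht]
      simp only [ite_self]
      ring
  · obtain ⟨M, hM⟩ := exists_nat_gt (5 * (1 + |α|))
    have hM0 : (0 : ℝ) < M := lt_trans (by positivity) hM
    have hM1 : 0 < M := by exact_mod_cast hM0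
    obtain ⟨c, hc⟩ : ∃ c : ℕ → ℕ × ℤ,
        ∀ n, c n = (n % (2 * M), ⌊10 * Int.fract (α * n / (2 * M))⌋) := ⟨_, fun _ => rfl⟩
    obtain ⟨y, hy⟩ := cell (Finset.range (2 * M) ×ˢ Finset.Ico (0 : ℤ) 10) c fun n => by
        rw [hc]
        have := Int.fract_nonneg (α * n / (2 * M))
        have := Int.fract_lt_one (α * n / (2 * M))
        simp only [Finset.mem_product, Finset.mem_range, Finset.mem_Ico]
        exact ⟨Nat.mod_lt _ (by omega), Int.floor_nonneg.2 (by positivity),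
          Int.floor_lt.2 (by push_cast; linarith)⟩
    refine ⟨{n | 1 ≤ n ∧ c n = y}, by simp, by unfold upperDensity; convert hy, fun h => ?_⟩
    obtain ⟨a, ha⟩ := h (2 * M)
    obtain ⟨n, k, hn, ⟨-, e, he, e', he', h3⟩, -, d, hd, d', hd', h4⟩ :
        ∃ (n : ℕ) (k : ℤ), (n : ℤ) = 2 * M * k + M ∧ n ∈ R f₁ {n | 1 ≤ n ∧ c n = y} ∩
          R f₂ {n | 1 ≤ n ∧ c n = y} := by
      have h5 := Int.emod_add_mul_ediv ((M : ℤ) - a) (2 * M)
      have h6 := Int.emod_nonneg ((M : ℤ) - a) (show (2 * M : ℤ) ≠ 0 by omega)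
      have h7 := Int.emod_lt_of_pos ((M : ℤ) - a) (show (0 : ℤ) < 2 * M by omega)
      refine ⟨_, -(((M : ℤ) - a) / (2 * M)), ?_, ha (((M : ℤ) - a) % (2 * M)).toNat (by omega)⟩
      push_cast
      rw [Int.toNat_of_nonneg h6]
      linarith
    obtain ⟨b, hb⟩ : ((2 * M : ℕ) : ℤ) ∣ d' - d :=
      Nat.modEq_iff_dvd.1 (congrArg Prod.fst ((hc d).symm.trans ((hd.2.trans hd'.2.symm).trans (hc d'))))
    have h5 : ⌊10 * Int.fract (α * e / (2 * M))⌋ = ⌊10 * Int.fract (α * e' / (2 * M))⌋ :=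
      congrArg Prod.snd ((hc e).symm.trans ((he.2.trans he'.2.symm).trans (hc e')))
    have h6 := abs_lt.1 (Int.abs_sub_lt_one_of_floor_eq_floor h5)
    simp only [Int.fract] at h6
    generalize ⌊α * e / (2 * M)⌋ = z at h6
    generalize ⌊α * e' / (2 * M)⌋ = z' at h6
    have g1 : (⌊f₁ n⌋ : ℝ) = e' - e := by exact_mod_cast (by omega : ⌊f₁ n⌋ = e' - e)
    have g2 : (⌊f₂ n⌋ : ℝ) = 2 * M * b := by
      exact_mod_cast (by push_cast at hb; omega : ⌊f₂ n⌋ = 2 * M * b)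
    have g3 : (n : ℝ) = 2 * M * k + M := by exact_mod_cast hn
    have g4 : f₂ n = α * f₁ n + n := by rw [h₁, h₂]
    have g5 := Int.floor_le (f₂ n)
    have g6 := Int.lt_floor_add_one (f₂ n)
    have g7 : |α * (f₁ n - (e' - e))| ≤ |α| := by
      rw [abs_mul, ← g1]
      exact mul_le_of_le_one_right (abs_nonneg _) (by
        rw [abs_le]
        constructor <;> linarith [Int.floor_le (f₁ n), Int.lt_floor_add_one (f₁ n)])
    have g8 := abs_le.1 g7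
    obtain ⟨x, hx⟩ : ∃ x, α * e = x * (2 * M) := ⟨α * e / (2 * M), by field_simp⟩
    obtain ⟨x', hx'⟩ : ∃ x, α * e' = x * (2 * M) := ⟨α * e' / (2 * M), by field_simp⟩
    rw [hx, hx', mul_div_cancel_right₀ _ (by positivity), mul_div_cancel_right₀ _ (by positivity)]
      at h6
    have g9 := mul_lt_mul_of_pos_left h6.1 hM0
    have g10 := mul_lt_mul_of_pos_left h6.2 hM0
    rcases le_or_gt (b - k - (z' - z)) 0 with h7 | h7
    · have h8 : ((b - k - (z' - z) : ℤ) : ℝ) ≤ 0 := by exact_mod_cast h7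
      push_cast at h8
      have := mul_le_mul_of_nonneg_left h8 hM0.le
      nlinarith
    · have h8 : (1 : ℝ) ≤ ((b - k - (z' - z) : ℤ) : ℝ) := by exact_mod_cast h7
      push_cast at h8
      have := mul_le_mul_of_nonneg_left h8 hM0.le
      nlinarith

end Pool.Agent.Results.MP_121ecb_an.No
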